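import Pool.Agent.Lib_helper73.Var.Block
import Pool.Agent.Lib_helper98.GA.Defs
import Pool.Agent.Lib_helper31.LW.Weights

/-! LSP, part O: the weights killing the characters of small conductor -/

set_option autoImplicit false

namespace Pool.Agent.LSPO

open Finset Complex Pool.Agent.Var73

/-- abstract form of the weight trick, general weights -/
theorem ww_weights {ι : Type*} [Fintype ι] [DecidableEq ι] (P : Finset ℕ) (u : ℕ → ℝ)
    (hu : ∀ n ∈ P, 0 < u n) (hu1 : ∑ n ∈ P, u n = 1)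
    (c : ι → ℕ → ℂ) (h1 : ∀ i, ∀ n ∈ P, ‖c i n‖ = 1) (σ : ι → ι)
    (hσ : ∀ i, ∀ n ∈ P, c (σ i) n = (starRingEnd ℂ) (c i n))
    (hG : ∀ i, ∑ j ∈ univ.erase i, ‖∑ n ∈ P, (u n : ℂ) * (c i n * (starRingEnd ℂ) (c j n))‖ ≤ 1 / 4)
    (h0 : ∑ i, ‖∑ n ∈ P, (u n : ℂ) * c i n‖ ≤ 1 / 4) :
    ∃ b : ℕ → ℝ, (∀ n ∈ P, 0 ≤ b n ∧ b n ≤ 2 * u n) ∧ ∑ n ∈ P, b n = 1 ∧
      ∀ i, ∑ n ∈ P, (b n : ℂ) * c i n = 0 := by
  set M : ι → ι → ℂ := fun i j => ∑ n ∈ P, (u n : ℂ) * (c i n * (starRingEnd ℂ) (c j n)) with hM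
  have hu1c : ∑ n ∈ P, (u n : ℂ) = 1 := by exact_mod_cast hu1
  have hd : ∀ i, M i i = 1 := by
    intro i
    rw [hM]
    simp only
    rw [← hu1c]
    refine Finset.sum_congr rfl fun n hn => ?_
    rw [Complex.mul_conj, Complex.normSq_eq_norm_sq, h1 i n hn]
    simp
  obtain ⟨a, ha, hab⟩ := LW.solve M hd hG (fun j => ∑ n ∈ P, (u n : ℂ) * (starRingEnd ℂ) (c j n))
  have hab' : ∑ i, ‖a i‖ ≤ 1 / 3 := by
    refine hab.trans ?_
    have h2 : ∑ i, ‖∑ n ∈ P, (u n : ℂ) * (starRingEnd ℂ) (c i n)‖ =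
        ∑ i, ‖∑ n ∈ P, (u n : ℂ) * c i n‖ := by
      refine Finset.sum_congr rfl fun j _ => ?_
      rw [← RCLike.norm_conj, map_sum]
      congr 1
      refine Finset.sum_congr rfl fun n _ => ?_
      rw [map_mul, Complex.conj_conj, Complex.conj_ofReal]
    rw [h2]
    linarith
  set h : ℕ → ℂ := fun n => ∑ i, a i * c i n with hh
  have hh1 : ∀ n ∈ P, ‖h n‖ ≤ 1 / 3 := by
    intro n hn
    calc ‖h n‖ ≤ ∑ i, ‖a i * c i n‖ := norm_sum_le _ _
      _ = ∑ i, ‖a i‖ := Finset.sum_congr rfl fun i _ => by rw [norm_mul, h1 i n hn, mul_one]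
      _ ≤ 1 / 3 := hab'
  have horth : ∀ j, ∑ n ∈ P, (u n : ℂ) * ((1 - h n) * (starRingEnd ℂ) (c j n)) = 0 := by
    intro j
    have e1 := ha j
    simp only [hM] at e1
    have e2 : ∑ n ∈ P, (u n : ℂ) * (h n * (starRingEnd ℂ) (c j n)) =
        ∑ n ∈ P, (u n : ℂ) * (starRingEnd ℂ) (c j n) := by
      rw [← e1]
      simp only [hh, Finset.sum_mul, Finset.mul_sum]
      rw [Finset.sum_comm]
      refine Finset.sum_congr rfl fun i _ => Finset.sum_congr rfl fun n _ => by ring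
    have e3 : ∀ n, (u n : ℂ) * ((1 - h n) * (starRingEnd ℂ) (c j n)) =
        (u n : ℂ) * (starRingEnd ℂ) (c j n) - (u n : ℂ) * (h n * (starRingEnd ℂ) (c j n)) := by
      intro n
      ring
    simp only [e3]
    rw [Finset.sum_sub_distrib, e2, sub_self]
  set w : ℕ → ℝ := fun n => u n * (1 - (h n).re) with hw
  have hw1 : ∀ n ∈ P, 2 / 3 * u n ≤ w n ∧ w n ≤ 4 / 3 * u n := by
    intro n hn
    have e1 := (Complex.abs_re_le_norm (h n)).trans (hh1 n hn)
    rw [abs_le] at e1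
    have e2 := hu n hn
    simp only [hw]
    constructor <;> nlinarith [e1.1, e1.2]
  have hwo : ∀ i, ∑ n ∈ P, (w n : ℂ) * c i n = 0 := by
    intro i
    have e1 := horth i
    have e2 := horth (σ i)
    have e3 : ∑ n ∈ P, (u n : ℂ) * ((1 - h n) * c i n) = 0 := by
      rw [← e2]
      refine Finset.sum_congr rfl fun n hn => ?_
      rw [hσ i n hn, Complex.conj_conj]
    have e4 : ∑ n ∈ P, (u n : ℂ) * ((1 - (starRingEnd ℂ) (h n)) * c i n) = 0 := by
      have := congrArg (starRingEnd ℂ) e1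
      rw [map_sum, map_zero] at this
      rw [← this]
      refine Finset.sum_congr rfl fun n _ => ?_
      rw [map_mul, map_mul, map_sub, map_one, Complex.conj_conj, Complex.conj_ofReal]
    have e5 : ∀ n, (w n : ℂ) = (u n : ℂ) * (((1 - h n) + (1 - (starRingEnd ℂ) (h n))) / 2) := by
      intro n
      simp only [hw]
      have e6 : ((1 - h n) + (1 - (starRingEnd ℂ) (h n))) / 2 = ((1 - (h n).re : ℝ) : ℂ) := by
        apply Complex.ext <;> simp
      rw [e6]
      push_cast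
      ring
    have e6 : ∑ n ∈ P, (w n : ℂ) * c i n =
        (∑ n ∈ P, (u n : ℂ) * ((1 - h n) * c i n) +
          ∑ n ∈ P, (u n : ℂ) * ((1 - (starRingEnd ℂ) (h n)) * c i n)) / 2 := by
      rw [← Finset.sum_add_distrib, Finset.sum_div]
      refine Finset.sum_congr rfl fun n _ => ?_
      rw [e5]; ring
    rw [e6, e3, e4]; simp
  set S : ℝ := ∑ n ∈ P, w n with hS
  have hSb : |S - 1| ≤ 1 / 12 := by
    have e1 : S - 1 = -(∑ n ∈ P, (u n : ℂ) * h n).re := by
      rw [hS, Complex.re_sum, ← hu1, ← Finset.sum_sub_distrib, ← Finset.sum_neg_distrib]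
      refine Finset.sum_congr rfl fun n _ => ?_
      simp only [hw]
      rw [Complex.re_ofReal_mul]
      ring
    have e2 : ‖∑ n ∈ P, (u n : ℂ) * h n‖ ≤ 1 / 12 := by
      have e3 : ∑ n ∈ P, (u n : ℂ) * h n = ∑ i, a i * ∑ n ∈ P, (u n : ℂ) * c i n := by
        simp only [hh, Finset.mul_sum]
        rw [Finset.sum_comm]
        refine Finset.sum_congr rfl fun i _ => Finset.sum_congr rfl fun n _ => by ring
      rw [e3]
      calc ‖∑ i, a i * ∑ n ∈ P, (u n : ℂ) * c i n‖ ≤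
          ∑ i, ‖a i * ∑ n ∈ P, (u n : ℂ) * c i n‖ := norm_sum_le _ _
        _ ≤ ∑ i, ‖a i‖ * (1 / 4) := by
          refine Finset.sum_le_sum fun i _ => ?_
          rw [norm_mul]
          refine mul_le_mul_of_nonneg_left ?_ (norm_nonneg _)
          exact (Finset.single_le_sum (f := fun i => ‖∑ n ∈ P, (u n : ℂ) * c i n‖)
            (fun i _ => norm_nonneg _) (Finset.mem_univ i)).trans h0
        _ = (∑ i, ‖a i‖) * (1 / 4) := by rw [Finset.sum_mul]
        _ ≤ 1 / 3 * (1 / 4) := by gcongr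
        _ = 1 / 12 := by norm_num
    rw [e1, abs_neg]
    exact (Complex.abs_re_le_norm _).trans e2
  rw [abs_le] at hSb
  have hS0 : 0 < S := by linarith [hSb.1]
  refine ⟨fun n => w n / S, ?_, ?_, ?_⟩
  · intro n hn
    have e1 := hw1 n hn
    have e2 := hu n hn
    constructor
    · have : 0 ≤ w n := by linarith [e1.1]
      positivity
    · rw [div_le_iff₀ hS0]
      nlinarith [hSb.1, e1.2]
  · rw [← Finset.sum_div]
    exact div_self hS0.ne'
  · intro i
    have e1 := hwo i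
    calc ∑ n ∈ P, ((w n / S : ℝ) : ℂ) * c i n = (∑ n ∈ P, (w n : ℂ) * c i n) / (S : ℂ) := by
          rw [Finset.sum_div]
          refine Finset.sum_congr rfl fun n _ => ?_
          push_cast; ring
      _ = 0 := by rw [e1]; simp

/-- a character at a number coprime to the level -/
theorem ww_prm {L : ℕ} [NeZero L] (χ : DirichletCharacter ℂ L) {p : ℕ} (hp : p.Coprime L) :
    χ (p : ZMod L) = Pool.Agent.Var35.ev (prm χ) p := by
  rw [char_prm χ p, if_pos]
  exact Nat.Coprime.coprime_dvd_right (Nat.div_dvd_of_dvd χ.conductor_dvd_level) hp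

theorem ww_lift {L d : ℕ} [NeZero L] (hd : d ∣ L) (ψ : DirichletCharacter ℂ d) (hψ : ψ ∈ Pr d)
    {p : ℕ} (hp : p.Coprime L) :
    DirichletCharacter.changeLevel hd ψ (p : ZMod L) = ψ (p : ZMod d) := by
  rw [ww_prm _ hp, prm_changeLevel hd ψ ((mem_Pr ψ).1 hψ)]
  rfl

/-- the conductor of a product -/
theorem ww_cond {L d d' : ℕ} [NeZero L] (hdd : d * d' ∣ L) (ψ : DirichletCharacter ℂ d)
    (ψ' : DirichletCharacter ℂ d') (hd : d ∣ L) (hd' : d' ∣ L) :
    (DirichletCharacter.changeLevel hd ψ * (DirichletCharacter.changeLevel hd' ψ')⁻¹).conductor ∣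
      d * d' := by
  refine DirichletCharacter.conductor_dvd_of_mem_conductorSet _ ?_
  rw [DirichletCharacter.mem_conductorSet_iff]
  refine ⟨hdd, DirichletCharacter.changeLevel (Nat.dvd_mul_right d d') ψ *
    (DirichletCharacter.changeLevel (Nat.dvd_mul_left d' d) ψ')⁻¹, ?_⟩
  rw [map_mul, map_inv, ← DirichletCharacter.changeLevel_trans,
    ← DirichletCharacter.changeLevel_trans]

theorem weights_char {R D : ℕ} (hR : 1 ≤ R) (hD : R ^ 2 ≤ D) (P : Finset ℕ)
    (hP : ∀ p ∈ P, p.Prime ∧ R ^ 2 < p) (u : ℕ → ℝ) (hu : ∀ p ∈ P, 0 < u p)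
    (hu1 : ∑ p ∈ P, u p = 1)
    (hS : ∑ q ∈ Icc 1 D, ∑ χ ∈ GA.Prm q, ‖∑ p ∈ P, (u p : ℂ) * χ (p : ZMod q)‖ ≤ 1 / 4) :
    ∃ b : ℕ → ℝ, (∀ p ∈ P, 0 ≤ b p ∧ b p ≤ 2 * u p) ∧ ∑ p ∈ P, b p = 1 ∧
      ∀ d, 1 < d → d ≤ R → ∀ ψ ∈ Pr d, ∑ p ∈ P, (b p : ℂ) * ψ (p : ZMod d) = 0 := by
  classical
  set L : ℕ := (R ^ 2).factorial with hL
  have : NeZero L := ⟨Nat.factorial_ne_zero _⟩
  have hcop : ∀ p ∈ P, p.Coprime L := by
    intro p hp
    rw [(hP p hp).1.coprime_iff_not_dvd, hL, (hP p hp).1.dvd_factorial]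
    exact not_le.mpr (hP p hp).2
  have hRR : R ≤ R ^ 2 := by nlinarith
  -- the index set
  set I : Finset Chr := (Finset.Ioc 1 R).sigma Pr with hI
  have hI1 : ∀ x ∈ I, 1 < x.1 ∧ x.1 ≤ R ∧ x.2 ∈ Pr x.1 := by
    intro x hx
    rw [hI, mem_sigma, mem_Ioc] at hx
    exact ⟨hx.1.1, hx.1.2, hx.2⟩
  have hIdvd : ∀ x ∈ I, x.1 ∣ L := by
    intro x hx
    obtain ⟨h1, h2, -⟩ := hI1 x hx
    exact Nat.dvd_factorial (by omega) (h2.trans hRR)
  -- the family of all nontrivial primitive characters up to `D`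
  set J : Finset Chr := (Icc 1 D).sigma GA.Prm with hJ
  set F : Chr → ℝ := fun y => ‖∑ p ∈ P, (u p : ℂ) * Pool.Agent.Var35.ev y p‖ with hF
  have hJS : ∑ y ∈ J, F y ≤ 1 / 4 := by
    rw [hJ, sum_sigma]
    exact hS
  have hJmem : ∀ y : Chr, y ∈ J ↔ (1 ≤ y.1 ∧ y.1 ≤ D) ∧ y.2.IsPrimitive ∧ y.2 ≠ 1 := by
    intro y
    rw [hJ, mem_sigma, mem_Icc]
    simp only [GA.Prm, mem_filter, mem_univ, true_and]
  let c : {x : Chr // x ∈ I} → ℕ → ℂ := fun x p => Pool.Agent.Var35.ev x.1 p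
  have hc : ∀ x : {x : Chr // x ∈ I}, ∀ p ∈ P, c x p =
      DirichletCharacter.changeLevel (hIdvd x.1 x.2) x.1.2 (p : ZMod L) := by
    intro x p hp
    rw [ww_lift (hIdvd x.1 x.2) x.1.2 (hI1 x.1 x.2).2.2 (hcop p hp)]
    rfl
  have hnorm : ∀ (χ : DirichletCharacter ℂ L), ∀ p ∈ P, ‖χ (p : ZMod L)‖ = 1 := by
    intro χ p hp
    have h1 : IsUnit (p : ZMod L) := (ZMod.isUnit_iff_coprime p L).mpr (hcop p hp)
    obtain ⟨v, hv⟩ := h1
    rw [← hv]
    exact DirichletCharacter.unit_norm_eq_one χ v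
  have hinv : ∀ x ∈ I, (⟨x.1, x.2⁻¹⟩ : Chr) ∈ I := by
    intro x hx
    rw [hI, mem_sigma] at hx ⊢
    refine ⟨hx.1, ?_⟩
    rw [mem_Pr]
    exact inv_primitive ((mem_Pr _).1 hx.2)
  obtain ⟨b, hb1, hb2, hb3⟩ := ww_weights P u hu hu1 c (fun x p hp => by
      rw [hc x p hp]
      exact hnorm _ p hp) (fun x => ⟨⟨x.1.1, x.1.2⁻¹⟩, hinv x.1 x.2⟩) (fun x p hp => by
      show x.1.2⁻¹ (p : ZMod x.1.1) = (starRingEnd ℂ) (x.1.2 (p : ZMod x.1.1))
      rw [← MulChar.star_apply']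
      rfl) (fun x => by
      -- Gram matrix
      have hg : ∀ x' : {x : Chr // x ∈ I}, ‖∑ p ∈ P, (u p : ℂ) * (c x p * (starRingEnd ℂ) (c x' p))‖ =
          F (prm (DirichletCharacter.changeLevel (hIdvd x.1 x.2) x.1.2 *
            (DirichletCharacter.changeLevel (hIdvd x'.1 x'.2) x'.1.2)⁻¹)) := by
        intro x'
        simp only [hF]
        congr 1
        refine Finset.sum_congr rfl fun p hp => ?_
        rw [← ww_prm _ (hcop p hp), hc x p hp, hc x' p hp]
        congr 1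
        rw [MulChar.mul_apply]
        congr 1
        rw [← MulChar.star_apply']
        rfl
      rw [Finset.sum_congr rfl fun x' _ => hg x']
      have hinjm : Set.InjOn (fun x' : {x : Chr // x ∈ I} =>
          prm (DirichletCharacter.changeLevel (hIdvd x.1 x.2) x.1.2 *
            (DirichletCharacter.changeLevel (hIdvd x'.1 x'.2) x'.1.2)⁻¹)) (univ.erase x : Finset _) := by
        intro x1 _ x2 _ h12
        have h13 := prm_injective h12
        have h14 := mul_left_cancel h13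
        have h15 := inv_injective h14
        have h16 : prm (DirichletCharacter.changeLevel (hIdvd x1.1 x1.2) x1.1.2) =
            prm (DirichletCharacter.changeLevel (hIdvd x2.1 x2.2) x2.1.2) := by rw [h15]
        rw [prm_changeLevel _ _ ((mem_Pr _).1 (hI1 x1.1 x1.2).2.2),
          prm_changeLevel _ _ ((mem_Pr _).1 (hI1 x2.1 x2.2).2.2)] at h16
        exact Subtype.ext h16
      rw [← Finset.sum_image (s := univ.erase x) (f := F) hinjm]
      refine le_trans (Finset.sum_le_sum_of_subset_of_nonneg ?_ fun y _ _ => norm_nonneg _) hJS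
      intro y hy
      rw [Finset.mem_image] at hy
      obtain ⟨x', hx', rfl⟩ := hy
      have hne : x' ≠ x := (Finset.mem_erase.1 hx').1
      set χ := DirichletCharacter.changeLevel (hIdvd x.1 x.2) x.1.2 *
            (DirichletCharacter.changeLevel (hIdvd x'.1 x'.2) x'.1.2)⁻¹ with hχ
      have hχ1 : χ ≠ 1 := by
        intro h1
        rw [hχ, mul_inv_eq_one] at h1
        have h16 : prm (DirichletCharacter.changeLevel (hIdvd x.1 x.2) x.1.2) =
            prm (DirichletCharacter.changeLevel (hIdvd x'.1 x'.2) x'.1.2) := by rw [h1]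
        rw [prm_changeLevel _ _ ((mem_Pr _).1 (hI1 x.1 x.2).2.2),
          prm_changeLevel _ _ ((mem_Pr _).1 (hI1 x'.1 x'.2).2.2)] at h16
        exact hne (Subtype.ext h16).symm
      rw [hJmem]
      obtain ⟨a1, a2, -⟩ := hI1 x.1 x.2
      obtain ⟨b1, b2, -⟩ := hI1 x'.1 x'.2
      have hmul : x.1.1 * x'.1.1 ≤ R ^ 2 := by
        rw [pow_two]
        exact Nat.mul_le_mul a2 b2
      have hpos : 0 < x.1.1 * x'.1.1 := Nat.mul_pos (by omega) (by omega)
      have hdd : x.1.1 * x'.1.1 ∣ L := Nat.dvd_factorial hpos hmul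
      have hcd := ww_cond hdd x.1.2 x'.1.2 (hIdvd x.1 x.2) (hIdvd x'.1 x'.2)
      refine ⟨⟨?_, ?_⟩, ?_, ?_⟩
      · exact Nat.one_le_iff_ne_zero.mpr (DirichletCharacter.conductor_ne_zero _)
      · exact (Nat.le_of_dvd hpos hcd).trans (hmul.trans hD)
      · exact DirichletCharacter.primitiveCharacter_isPrimitive _
      · intro h1
        apply hχ1
        have h2 := DirichletCharacter.changeLevel_primitiveCharacter χ
        rw [← h2]
        show DirichletCharacter.changeLevel _ χ.primitiveCharacter = 1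
        have h3 : χ.primitiveCharacter = 1 := h1
        rw [h3, DirichletCharacter.changeLevel_one]) (by
      -- the linear condition
      have h1 : ∑ x : {x : Chr // x ∈ I}, ‖∑ n ∈ P, (u n : ℂ) * c x n‖ = ∑ x ∈ I, F x := by
        rw [← Finset.sum_coe_sort I F]
      rw [h1]
      refine le_trans (Finset.sum_le_sum_of_subset_of_nonneg ?_ fun y _ _ => norm_nonneg _) hJS
      intro x hx
      obtain ⟨a1, a2, a3⟩ := hI1 x hx
      rw [hJmem]
      refine ⟨⟨by omega, a2.trans (hRR.trans hD)⟩, (mem_Pr _).1 a3, ?_⟩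
      intro h2
      have h3 := (mem_Pr _).1 a3
      have : NeZero x.1 := ⟨by omega⟩
      rw [DirichletCharacter.isPrimitive_def, h2, DirichletCharacter.conductor_one] at h3
      omega)
  refine ⟨b, hb1, hb2, fun d h1 h2 ψ hψ => ?_⟩
  have hx : (⟨d, ψ⟩ : Chr) ∈ I := by
    rw [hI, mem_sigma, mem_Ioc]
    exact ⟨⟨h1, h2⟩, hψ⟩
  exact hb3 ⟨⟨d, ψ⟩, hx⟩

end Pool.Agent.LSPO
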